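import Pool.Agent.V7H84.Perm.Comp

/-!
# Powers of ideals and degree cuts of circuits for the permanent

Let `K` be a field with `2 ≠ 0` and let `R` be a polynomial in the entries of the generic
`n × n` matrix all of whose monomials have degree less than `n`.

* If `j ≥ 2` and `per_n + R` lies in the `j`-th power of the ideal generated by a set `S` of
  polynomials without constant term, then `S` contains at least `j n` algebraically independent
  polynomials. This is proved in the approximate (border) version: it suffices that
  `ε ^ e (per_n + R + ε Q)` lies in the `j`-th power of an ideal generated by polynomials over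
  `K[ε]` without constant term.
* For `1 ≤ d < n` every arithmetic circuit for `per_n + R` (fan-in 2, arbitrary degrees) contains
  at least `⌈n / d⌉ n` gates of degree at most `d`, each of them an input of a gate of degree more
  than `d`, which compute algebraically independent polynomials.

The first statement rests on the dimension `(n - k - 1) n` of the variety of zeros of all `k`-th
order partial derivatives of the permanent (`CodimensionH84`): `j - 1` derivatives of an element of
the `j`-th power of an ideal lie in the ideal. The second one follows: the gates of the cut, shifted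
by constants, generate `per_n + R` as an algebra, and the products of fewer than `n / d` of them
have degree less than `n`.
-/

set_option autoImplicit false

universe u

open MvPolynomial

/-- Powers of ideals containing the permanent up to lower degree terms (border version), and the
degree cuts of arithmetic circuits for the permanent up to lower degree terms. -/
theorem Pool.Agent.Results.MP_8b1d3b_lc.CircuitCutsH84.result {K : Type u} [Field K]
    (h2 : (2 : K) ≠ 0) (n : ℕ) (R : MvPolynomial (Fin n × Fin n) K)
    (hR : ∀ m, R.coeff m ≠ 0 → m.degree < n) :
    (∀ (j e : ℕ) (Q : MvPolynomial (Fin n × Fin n) (Polynomial K))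
      (S : Set (MvPolynomial (Fin n × Fin n) (Polynomial K))), 2 ≤ j →
      (∀ f ∈ S, constantCoeff f = 0) →
      C (Polynomial.X ^ e) * (map Polynomial.C
          (Matrix.permanent (Matrix.of fun i j : Fin n => X (i, j)) + R) + C Polynomial.X * Q) ∈
        Ideal.span S ^ j →
      ∃ s : Finset (MvPolynomial (Fin n × Fin n) (Polynomial K)), (s : Set _) ⊆ S ∧
        s.card = j * n ∧ AlgebraicIndependent (Polynomial K)
          (fun f : s => (f : MvPolynomial (Fin n × Fin n) (Polynomial K)))) ∧
    (∀ (d m : ℕ) (g : Fin (m + 1) → MvPolynomial (Fin n × Fin n) K) (op : Fin (m + 1) → Prop)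
      (l r : Fin (m + 1) → Fin (m + 1)), 1 ≤ d → d < n →
      (∀ i, op i → l i < i ∧ r i < i ∧ (g i = g (l i) + g (r i) ∨ g i = g (l i) * g (r i))) →
      (∀ i, ¬ op i → (∃ v, g i = X v) ∨ ∃ c, g i = C c) →
      g (Fin.last m) = Matrix.permanent (Matrix.of fun i j : Fin n => X (i, j)) + R →
      ∃ s : Finset (Fin (m + 1)), s.card = (n + d - 1) / d * n ∧
        (∀ a ∈ s, (g a).totalDegree ≤ d ∧
          ∃ i, op i ∧ (l i = a ∨ r i = a) ∧ d < (g i).totalDegree) ∧
        AlgebraicIndependent K (fun a : s => g a)) :=
  ⟨fun _ _ _ _ hj h0 h => Pool.Agent.V7H84.Perm.power_set h2 hj hR h0 h,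
    fun _ _ g op l r hd hdn hop hleaf hout =>
      Pool.Agent.V7H84.Perm.circuit_cut h2 hd hdn hR g op l r hop hleaf hout⟩
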