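import Pool.Agent.V7H84.Perm.Sing

/-!
# The dimension of all generic permanental varieties and of the singular loci of the permanent

Over every field `K` with `2 ≠ 0`:

* for all `1 ≤ r ≤ m ≤ N` except `r = m = N`, the variety of all `m × N` matrices whose `r × r`
  subpermanents all vanish has dimension exactly `(r - 1) N`, that is codimension `(m - r + 1) N`
  (in the excluded case it is the hypersurface `per = 0`);
* for all `1 ≤ k < n` the variety of all `n × n` matrices at which all `k`-th order partial
  derivatives of `per_n` vanish (the points of multiplicity greater than `k` of the permanental
  hypersurface) has dimension exactly `(n - k - 1) n`, that is codimension `(k + 1) n`. For `k = 1`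
  this is the singular locus of the hypersurface `per_n = 0`: its codimension is exactly `2n`.

Known before, as far as I know: the codimension of the singular locus is at least 5 (von zur
Gathen 1987) and at least 6 (Boralevi, Carlini, Michałek, Ventura 2022), the case `r = 2`
(Laubenbacher, Swanson 2000) and small matrices. In characteristic 2 the statement fails, as
`per = det` there.

The lower bound for the dimension is elementary (matrices with only `r - 1` nonzero rows). The
upper bound is proved for the coordinates of a generic point. The rows of a matrix over an
extension field `F` are viewed as linear forms in the algebra `F[t_1, …, t_N]/(t_j²)`; the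
coefficients of a product of rows are the subpermanents. By induction on the number of columns: if
all products of at least `|I| - k` rows vanish then `trdeg_K + (k + 1) N ≤ |I| N` (theorem `main` in
`Pool/Agent/V7H84/Perm/Main.lean`). In the step a nonzero entry `x_rc` is chosen, the ratios
`ρ_j = x_rj / x_rc` and the column `a_i = x_ic` are recorded, all entries outside of row `r` and
column `c` are multiplied by a parameter `ε`, and `ε` is specialised to `0` without loss of
transcendence degree (`Tool.lean`). In the limit the products of the remaining rows vanish again,
and there are two more relations between these rows, `ρ` and `a` (`rel_row`, `rel_third` in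
`Rel.lean`), which bound the number of free parameters among `ρ` and `a` (`Count.lean`); here
`2 ≠ 0` is used.
-/

set_option autoImplicit false

universe u

open MvPolynomial

/-- The dimensions of the varieties of vanishing subpermanents and of the varieties of vanishing
higher derivatives of the permanent. -/
theorem Pool.Agent.Results.MP_8b1d3b_lc.CodimensionH84.result {K : Type u} [Field K]
    (h2 : (2 : K) ≠ 0) :
    (∀ r m N : ℕ, 1 ≤ r → r ≤ m → m ≤ N → ¬ (r = m ∧ m = N) →
      ringKrullDim (MvPolynomial (Fin m × Fin N) K ⧸
        Ideal.span {x : MvPolynomial (Fin m × Fin N) K |
          ∃ (e : Fin r ↪o Fin m) (f : Fin r ↪o Fin N),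
            x = Matrix.permanent (Matrix.of fun a b => X (e a, f b))}) =
        ((r - 1) * N : ℕ)) ∧
    (∀ n k : ℕ, 1 ≤ k → k < n →
      ringKrullDim (MvPolynomial (Fin n × Fin n) K ⧸
        Ideal.span {x : MvPolynomial (Fin n × Fin n) K |
          ∃ l : List (Fin n × Fin n), l.length = k ∧
            x = l.foldr (fun p f => pderiv p f)
              (Matrix.permanent (Matrix.of fun i j => X (i, j)))}) =
        ((n - k - 1) * n : ℕ)) :=
  ⟨fun _ _ _ hr hrm hmN hne => Pool.Agent.V7H84.Perm.ringKrullDim_permIdeal h2 hr hrm hmN hne,
    fun _ _ hk hkn => Pool.Agent.V7H84.Perm.ringKrullDim_iter_pderiv h2 hk hkn⟩
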